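import Pool.Agent.H6.FIB.TargetsP

set_option autoImplicit false

open scoped Classical

namespace Pool.Agent.H1.FIB

open FI AMc AMt

section rad

variable {X : Type} [Group X]

/-- `A` normalises `B` -/
def PRB_nz (A B : Subgroup X) : Prop := ∀ a ∈ A, ∀ b ∈ B, a * b * a⁻¹ ∈ B

/-- the solvable radical of a subgroup -/
def PRB_rad (S : Subgroup X) : Subgroup X := (sol S).map S.subtype

theorem PRB_rad_le (S : Subgroup X) : PRB_rad S ≤ S := Subgroup.map_subtype_le _

theorem PRB_comap_solv {A B : Type} [Group A] [Group B] (g : A →* B) (hg : Function.Injective g)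
    (N : Subgroup B) (hN : Group.IsSolvable N) : Group.IsSolvable (N.comap g) := by
  have := hN
  exact Group.isSolvable_of_isSolvable_injective (f := g.subgroupComap N)
    (fun x y h => Subtype.ext (hg (congrArg Subtype.val h)))

theorem PRB_map_solv {A B : Type} [Group A] [Group B] (g : A →* B)
    (N : Subgroup A) (hN : Group.IsSolvable N) : Group.IsSolvable (N.map g) := by
  have := hN
  exact Group.isSolvable_of_surjective (g.subgroupMap_surjective N)

theorem PRB_le_solv {A B : Subgroup X} (h : A ≤ B) (hB : Group.IsSolvable B) :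
    Group.IsSolvable A := by
  have := hB
  exact Group.isSolvable_of_isSolvable_injective (Subgroup.inclusion_injective h)

theorem PRB_rad_solv [Finite X] (h1 : T_SOL) (S : Subgroup X) : Group.IsSolvable (PRB_rad S) :=
  PRB_map_solv S.subtype _ (h1 S).1

theorem PRB_rad_nz (S : Subgroup X) : PRB_nz S (PRB_rad S) := by
  rintro s hs _ ⟨r, hr, rfl⟩
  exact ⟨⟨s, hs⟩ * r * ⟨s, hs⟩⁻¹, (sol_normal S).conj_mem r hr ⟨s, hs⟩, rfl⟩

theorem PRB_rad_max [Finite X] (h1 : T_SOL) {S N : Subgroup X} (hN : N ≤ S) (hn : PRB_nz S N)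
    (hs : Group.IsSolvable N) : N ≤ PRB_rad S := by
  have h2 : (N.subgroupOf S).Normal := ⟨fun n hn' g => hn g g.2 n hn'⟩
  have h3 : Group.IsSolvable (N.subgroupOf S) :=
    PRB_comap_solv S.subtype S.subtype_injective N hs
  intro x hx
  exact ⟨⟨x, hN hx⟩, (h1 S).2.1 _ h2 h3 hx, rfl⟩

theorem PRB_rad_char [Finite X] (h1 : T_SOL) {A S : Subgroup X} (h : PRB_nz A S) :
    PRB_nz A (PRB_rad S) := by
  intro g hg r hr
  have hN : (PRB_rad S).map (MulAut.conj g).toMonoidHom ≤ PRB_rad S := by
    refine PRB_rad_max h1 ?_ ?_ ?_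
    · rintro _ ⟨x, hx, rfl⟩
      exact h g hg x (PRB_rad_le S hx)
    · rintro s hs _ ⟨x, hx, rfl⟩
      have h3 : g⁻¹ * s * g ∈ S := by
        have h4 := h g⁻¹ (A.inv_mem hg) s hs
        rwa [inv_inv] at h4
      refine ⟨(g⁻¹ * s * g) * x * (g⁻¹ * s * g)⁻¹, PRB_rad_nz S _ h3 x hx, ?_⟩
      simp [MulAut.conj_apply, mul_assoc]
    · exact PRB_map_solv _ _ (PRB_rad_solv h1 S)
  exact hN ⟨r, hr, rfl⟩

theorem PRB_card_rad [Finite X] (S : Subgroup X) :
    Nat.card (PRB_rad S) * (sol S).index = Nat.card S := by
  have h : Nat.card (PRB_rad S) = Nat.card (sol S) :=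
    Subgroup.card_map_of_injective S.subtype_injective
  rw [h, Subgroup.card_mul_index]

theorem PRB_card {T S : Subgroup X} (h : T ≤ S) : Nat.card T * T.relIndex S = Nat.card S := by
  have h2 := (T.subgroupOf S).card_mul_index
  rw [Nat.card_congr (Subgroup.subgroupOfEquivOfLe h).toEquiv] at h2
  exact h2

theorem PRB_iso (h2 : T_SQ) {A B : Type} [Group A] [Finite A] [Group B] [Finite B] (f : A ≃* B) :
    (sol A).index = (sol B).index := by
  refine (h2 A B f.toMonoidHom f.surjective ?_).1
  have h3 : f.toMonoidHom.ker = ⊥ := (MonoidHom.ker_eq_bot_iff _).mpr f.injective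
  rw [h3]
  infer_instance

/-- A group which is abelian modulo a solvable normal subgroup is solvable. -/
theorem PRB_ext {D R : Subgroup X} (hR : Group.IsSolvable R) (hn : PRB_nz D R)
    (hc : ∀ a ∈ D, ∀ b ∈ D, a * b * a⁻¹ * b⁻¹ ∈ R) (hRD : R ≤ D) : Group.IsSolvable D := by
  have h2 : (R.subgroupOf D).Normal := ⟨fun n hn' g => hn g g.2 n hn'⟩
  have h3 : Group.IsSolvable (D ⧸ R.subgroupOf D) := by
    refine Group.isSolvable_of_comm fun a b => ?_
    obtain ⟨a, rfl⟩ := QuotientGroup.mk'_surjective _ a
    obtain ⟨b, rfl⟩ := QuotientGroup.mk'_surjective _ b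
    rw [← map_mul, ← map_mul]
    refine (QuotientGroup.mk'_eq_mk' _).mpr ⟨(a * b)⁻¹ * (b * a), ?_, by group⟩
    have h4 := hc (b : X)⁻¹ (D.inv_mem b.2) (a : X)⁻¹ (D.inv_mem a.2)
    have h5 : (b : X)⁻¹ * (a : X)⁻¹ * ((b : X)⁻¹)⁻¹ * ((a : X)⁻¹)⁻¹ =
        (((a * b)⁻¹ * (b * a) : D) : X) := by
      push_cast
      group
    rw [h5] at h4
    exact h4
  have := hR
  refine Group.isSolvable_of_ker_le_range (Subgroup.inclusion hRD)
    (QuotientGroup.mk' (R.subgroupOf D)) ?_
  intro x hx
  rw [QuotientGroup.ker_mk'] at hx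
  exact ⟨⟨x, hx⟩, rfl⟩

end rad

section step

variable {G : Type} [Group G]

theorem PRB_inf (C M : Subgroup G) [C.Normal] (h : M ⊔ C = ⊤) :
    Nat.card G * Nat.card (C ⊓ M : Subgroup G) = Nat.card C * Nat.card M := by
  have h2 : C.index = C.relIndex M := by
    rw [← Subgroup.relIndex_sup_right M C, h, Subgroup.relIndex_top_right]
  have h3 : Nat.card (C ⊓ M : Subgroup G) * C.relIndex M = Nat.card M := by
    rw [← Subgroup.inf_relIndex_right]
    exact PRB_card inf_le_right
  rw [← h3, ← h2, ← C.card_mul_index]
  ring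

/-- elements which commute with `K` modulo `R` -/
def PRB_cen (K R : Subgroup G) [R.Normal] : Subgroup G where
  carrier := {g | ∀ k ∈ K, g * k * g⁻¹ * k⁻¹ ∈ R}
  mul_mem' := by
    intro a b ha hb k hk
    have h2 := R.mul_mem (Subgroup.Normal.conj_mem ‹R.Normal› _ (hb k hk) a) (ha k hk)
    have h3 : a * (b * k * b⁻¹ * k⁻¹) * a⁻¹ * (a * k * a⁻¹ * k⁻¹) = a * b * k * (a * b)⁻¹ * k⁻¹ := by
      group
    rw [h3] at h2
    exact h2
  one_mem' := by
    intro k hk
    have h2 : 1 * k * (1 : G)⁻¹ * k⁻¹ = 1 := by group
    rw [h2]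
    exact R.one_mem
  inv_mem' := by
    intro a ha k hk
    have h2 := Subgroup.Normal.conj_mem ‹R.Normal› _ (R.inv_mem (ha k hk)) a⁻¹
    have h3 : a⁻¹ * (a * k * a⁻¹ * k⁻¹)⁻¹ * a⁻¹⁻¹ = a⁻¹ * k * a⁻¹⁻¹ * k⁻¹ := by group
    rw [h3] at h2
    exact h2

theorem PRB_cen_normal (K R : Subgroup G) [R.Normal] [K.Normal] : (PRB_cen K R).Normal := by
  refine ⟨fun s hs g k hk => ?_⟩
  have h1 := hs _ (Subgroup.Normal.conj_mem ‹K.Normal› k hk g⁻¹)
  have h2 := Subgroup.Normal.conj_mem ‹R.Normal› _ h1 g
  have h3 : g * (s * (g⁻¹ * k * g⁻¹⁻¹) * s⁻¹ * (g⁻¹ * k * g⁻¹⁻¹)⁻¹) * g⁻¹ =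
      g * s * g⁻¹ * k * (g * s * g⁻¹)⁻¹ * k⁻¹ := by group
  rw [h3] at h2
  exact h2

theorem PRB_le_rpow {m e : ℝ} (hm : 1 ≤ m) (he : 1 ≤ e) : m ≤ m ^ e := by
  have h2 := Real.rpow_le_rpow_of_exponent_le hm he
  rwa [Real.rpow_one] at h2

theorem PRB_step (h1 : T_SOL) (h2 : T_SQ) (e : ℝ) (he : 1 ≤ e) [Finite G]
    (hH : ∀ T : Subgroup (G ⧸ sol G), IsCoatom T → T.normalCore = ⊥ →
      (Nat.card (sol T) : ℝ) ≤ (T.index : ℝ) ^ (e - 1))
    (IH : ∀ C D : Subgroup G, D ≤ C → Nat.card C < Nat.card G →
      ((sol C).index : ℝ) ≤ (D.relIndex C : ℝ) ^ e * ((sol D).index : ℝ))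
    (M : Subgroup G) (hM : IsCoatom M) :
    ((sol G).index : ℝ) ≤ (M.index : ℝ) ^ e * ((sol M).index : ℝ) := by
  have hm0 : M.index ≠ 0 := Subgroup.index_ne_zero_of_finite
  have hm : (1 : ℝ) ≤ (M.index : ℝ) := by exact_mod_cast Nat.one_le_iff_ne_zero.mpr hm0
  have hme : (1 : ℝ) ≤ (M.index : ℝ) ^ e := Real.one_le_rpow hm (by linarith)
  have hsn := sol_normal G
  by_cases hA : sol G ≤ M
  swap
  · -- Case A
    have hsup : M ⊔ sol G = ⊤ := hM.2 _ (lt_of_le_of_ne le_sup_left fun h3 =>
      hA (h3 ▸ le_sup_right))
    have hf : Function.Surjective ((QuotientGroup.mk' (sol G)).comp M.subtype) := by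
      intro q
      obtain ⟨s, rfl⟩ := QuotientGroup.mk'_surjective _ q
      have hs : s ∈ M ⊔ sol G := hsup ▸ Subgroup.mem_top s
      obtain ⟨t, ht, r, hr, rfl⟩ := Subgroup.mem_sup_of_normal_right.mp hs
      refine ⟨⟨t, ht⟩, ?_⟩
      show QuotientGroup.mk' (sol G) t = QuotientGroup.mk' (sol G) (t * r)
      have h5 : QuotientGroup.mk' (sol G) r = 1 := (QuotientGroup.eq_one_iff r).mpr hr
      rw [map_mul, h5, mul_one]
    have hk : Group.IsSolvable ((QuotientGroup.mk' (sol G)).comp M.subtype).ker := by
      have h3 : ((QuotientGroup.mk' (sol G)).comp M.subtype).ker = (sol G).comap M.subtype := by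
        rw [← MonoidHom.comap_ker, QuotientGroup.ker_mk']
      rw [h3]
      exact PRB_comap_solv _ M.subtype_injective _ (h1 G).1
    have h4 := (h2 _ _ _ hf hk).1
    rw [(h1 G).2.2.2, Subgroup.index_bot] at h4
    have h5 : (sol M).index = (sol G).index := h4
    rw [h5]
    exact le_mul_of_one_le_left (Nat.cast_nonneg _) hme
  · -- Case B
    have hsur := QuotientGroup.mk'_surjective (sol G)
    have hcm : (M.map (QuotientGroup.mk' (sol G))).comap (QuotientGroup.mk' (sol G)) = M := by
      rw [Subgroup.comap_map_eq, QuotientGroup.ker_mk']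
      exact sup_eq_left.mpr hA
    by_cases hB : M.normalCore ≤ sol G
    · -- Case B1
      have hidx : (M.map (QuotientGroup.mk' (sol G))).index = M.index := by
        rw [← Subgroup.index_comap_of_surjective _ hsur, hcm]
      have hco : IsCoatom (M.map (QuotientGroup.mk' (sol G))) := by
        refine ⟨fun h3 => hM.1 ?_, fun U hU => ?_⟩
        · rw [← hcm, h3, Subgroup.comap_top]
        · have h3 : M < U.comap (QuotientGroup.mk' (sol G)) := by
            rw [← hcm]
            exact lt_of_le_of_ne (Subgroup.comap_mono hU.le) fun h4 =>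
              hU.ne (Subgroup.comap_injective hsur h4)
          have h4 := hM.2 _ h3
          rw [← Subgroup.map_comap_eq_self_of_surjective hsur U, h4,
            Subgroup.map_top_of_surjective _ hsur]
      have hnc : (M.map (QuotientGroup.mk' (sol G))).normalCore = ⊥ := by
        rw [eq_bot_iff, ← Subgroup.map_comap_eq_self_of_surjective hsur
          (M.map (QuotientGroup.mk' (sol G))).normalCore]
        have h3 : ((M.map (QuotientGroup.mk' (sol G))).normalCore).comap
            (QuotientGroup.mk' (sol G)) ≤ sol G := by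
          refine le_trans ?_ hB
          refine Subgroup.normal_le_normalCore.mpr ?_
          rw [← hcm]
          exact Subgroup.comap_mono (by rw [hcm]; exact Subgroup.normalCore_le _)
        rintro _ ⟨x, hx, rfl⟩
        exact Subgroup.mem_bot.mpr ((QuotientGroup.eq_one_iff x).mpr (h3 hx))
      have h3 := hH _ hco hnc
      rw [hidx] at h3
      have hr : (sol M).index = (sol (M.map (QuotientGroup.mk' (sol G)))).index := by
        refine (h2 _ _ ((QuotientGroup.mk' (sol G)).subgroupMap M)
          (MonoidHom.subgroupMap_surjective _ _) ?_).1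
        have h4 : ((QuotientGroup.mk' (sol G)).subgroupMap M).ker = (sol G).comap M.subtype := by
          ext x
          rw [MonoidHom.mem_ker, Subgroup.mem_comap]
          exact ⟨fun h5 => (QuotientGroup.eq_one_iff _).mp (congrArg Subtype.val h5),
            fun h5 => Subtype.ext ((QuotientGroup.eq_one_iff _).mpr h5)⟩
        rw [h4]
        exact PRB_comap_solv _ M.subtype_injective _ (h1 G).1
      have h5 : (sol G).index = Nat.card (sol (M.map (QuotientGroup.mk' (sol G)))) *
          (sol M).index * M.index := by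
        rw [hr, Subgroup.card_mul_index, ← hidx, Subgroup.card_mul_index]
        rfl
      have h6 : (M.index : ℝ) ^ e = (M.index : ℝ) ^ (e - 1) * M.index := by
        rw [← Real.rpow_add_one (by positivity)]
        congr 1
        ring
      rw [h5, h6]
      push_cast
      nlinarith [mul_le_mul_of_nonneg_right h3
        (mul_nonneg (Nat.cast_nonneg (α := ℝ) (sol M).index) (Nat.cast_nonneg (α := ℝ) M.index))]
    · -- Case B2
      have hKn : (M.normalCore).Normal := inferInstance
      have hKM : M.normalCore ≤ M := Subgroup.normalCore_le _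
      set K := M.normalCore with hK
      have hRK : sol G ≤ K := Subgroup.normal_le_normalCore.mpr hA
      have hCn : (PRB_cen K (sol G)).Normal := PRB_cen_normal K (sol G)
      set C := PRB_cen K (sol G) with hC
      have hRs := (h1 G).1
      -- normal subgroups and their radicals
      have hnz : ∀ (A N : Subgroup G), N.Normal → PRB_nz A N :=
        fun A N hN a _ b hb => hN.conj_mem b hb a
      have hrad : ∀ N : Subgroup G, N.Normal → PRB_rad N ≤ sol G := by
        intro N hN
        have h3 : PRB_nz ⊤ (PRB_rad N) := PRB_rad_char h1 (hnz ⊤ N hN)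
        exact (h1 G).2.1 _ ⟨fun n hn g => h3 g trivial n hn⟩ (PRB_rad_solv h1 N)
      have hP1 := PRB_rad_nz M
      have hPM := PRB_rad_le M
      have hPs := PRB_rad_solv h1 M
      have hRP : sol G ≤ PRB_rad M := PRB_rad_max h1 hA (hnz _ _ hsn) hRs
      set P := PRB_rad M with hP
      have hKP : K ⊓ P ≤ sol G := by
        refine le_trans (PRB_rad_max h1 inf_le_left ?_ (PRB_le_solv inf_le_right hPs))
          (hrad K hKn)
        intro k hk b hb
        exact ⟨hKn.conj_mem b hb.1 k, hP1 k (hKM hk) b hb.2⟩
      have hPC : P ≤ C := by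
        intro p hp k hk
        refine hKP ⟨K.mul_mem (hKn.conj_mem k hk p) (K.inv_mem hk), ?_⟩
        have h3 := P.mul_mem hp (hP1 k (hKM hk) p⁻¹ (P.inv_mem hp))
        have h4 : p * (k * p⁻¹ * k⁻¹) = p * k * p⁻¹ * k⁻¹ := by group
        rw [h4] at h3
        exact h3
      have hcG : Nat.card (sol G) * (sol G).index = Nat.card G := Subgroup.card_mul_index _
      have hcM : Nat.card P * (sol M).index = Nat.card M := PRB_card_rad M
      have hcm' : Nat.card M * M.index = Nat.card G := Subgroup.card_mul_index _
      by_cases hCM : C ≤ M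
      · have hPR : P = sol G := by
          refine le_antisymm (le_trans (PRB_rad_max h1 hPC ?_ hPs) (hrad C hCn)) hRP
          exact fun c hc b hb => hP1 c (hCM hc) b hb
        rw [hPR] at hcM
        have h3 : (sol G).index = M.index * (sol M).index := by
          have h4 : Nat.card (sol G) * (sol G).index =
              Nat.card (sol G) * (M.index * (sol M).index) := by
            rw [hcG, ← hcm', ← hcM]
            ring
          exact Nat.eq_of_mul_eq_mul_left Nat.card_pos h4
        rw [h3]
        push_cast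
        exact mul_le_mul_of_nonneg_right (PRB_le_rpow hm he) (Nat.cast_nonneg _)
      · have hsup : M ⊔ C = ⊤ := hM.2 _ (lt_of_le_of_ne le_sup_left fun h3 =>
          hCM (h3 ▸ le_sup_right))
        have hRC : sol G ≤ C := by
          intro r hr k hk
          have h3 := (sol G).mul_mem hr (hsn.conj_mem r⁻¹ ((sol G).inv_mem hr) k)
          have h4 : r * (k * r⁻¹ * k⁻¹) = r * k * r⁻¹ * k⁻¹ := by group
          rw [h4] at h3
          exact h3
        have hCt : C ≠ ⊤ := by
          intro h3
          apply hB
          have h4 : Group.IsSolvable K := by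
            refine PRB_ext hRs (hnz _ _ hsn) (fun a _ b hb => ?_) hRK
            have h5 : a ∈ C := by
              rw [h3]
              trivial
            exact h5 b hb
          exact (h1 G).2.1 K hKn h4
        have hcl : Nat.card C < Nat.card G := by
          have h3 : 1 < C.index := by
            have h4 : C.index ≠ 1 := fun h5 => hCt (Subgroup.index_eq_one.mp h5)
            have h5 : C.index ≠ 0 := Subgroup.index_ne_zero_of_finite
            omega
          have h4 := C.card_mul_index
          have h5 : 0 < Nat.card C := Nat.card_pos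
          nlinarith
        have hradC : PRB_rad C = sol G :=
          le_antisymm (hrad C hCn) (PRB_rad_max h1 hRC (hnz _ _ hsn) hRs)
        have hradD : PRB_rad (C ⊓ M) = P := by
          refine le_antisymm ?_ ?_
          · refine PRB_rad_max h1 (le_trans (PRB_rad_le _) inf_le_right) ?_ (PRB_rad_solv h1 _)
            refine PRB_rad_char h1 fun a ha b hb => ?_
            exact ⟨hCn.conj_mem b hb.1 a, M.mul_mem (M.mul_mem ha hb.2) (M.inv_mem ha)⟩
          · exact PRB_rad_max h1 (le_inf hPC hPM) (fun a ha b hb => hP1 a ha.2 b hb) hPs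
        have hcC := PRB_card_rad C
        have hcD := PRB_card_rad (C ⊓ M)
        rw [hradC] at hcC
        rw [hradD] at hcD
        have hinf := PRB_inf C M hsup
        have hCD := PRB_card (inf_le_left : C ⊓ M ≤ C)
        have hIH := IH C (C ⊓ M) inf_le_left hcl
        have p1 : 0 < Nat.card (sol G) := Nat.card_pos
        have p2 : 0 < Nat.card P := Nat.card_pos
        have p3 : 0 < Nat.card M := Nat.card_pos
        have p4 : 0 < Nat.card (C ⊓ M : Subgroup G) := Nat.card_pos
        have p5 : 0 < (sol (C ⊓ M : Subgroup G)).index :=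
          Nat.pos_of_ne_zero Subgroup.index_ne_zero_of_finite
        have hmm : (C ⊓ M).relIndex C = M.index := by
          have h3 : Nat.card M * Nat.card (C ⊓ M : Subgroup G) * (C ⊓ M).relIndex C =
              Nat.card M * Nat.card (C ⊓ M : Subgroup G) * M.index := by
            calc Nat.card M * Nat.card (C ⊓ M : Subgroup G) * (C ⊓ M).relIndex C
                = Nat.card M * (Nat.card (C ⊓ M : Subgroup G) * (C ⊓ M).relIndex C) := by ring
              _ = Nat.card C * Nat.card M := by rw [hCD]; ring
              _ = Nat.card G * Nat.card (C ⊓ M : Subgroup G) := hinf.symm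
              _ = _ := by rw [← hcm']; ring
          exact Nat.eq_of_mul_eq_mul_left (Nat.mul_pos p3 p4) h3
        rw [hmm] at hIH
        have h3 : (sol G).index * (sol (C ⊓ M : Subgroup G)).index =
            (sol C).index * (sol M).index := by
          have h4 : Nat.card (sol G) * Nat.card P *
              ((sol G).index * (sol (C ⊓ M : Subgroup G)).index) =
              Nat.card (sol G) * Nat.card P * ((sol C).index * (sol M).index) := by
            calc Nat.card (sol G) * Nat.card P *
              ((sol G).index * (sol (C ⊓ M : Subgroup G)).index)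
                = (Nat.card (sol G) * (sol G).index) *
                  (Nat.card P * (sol (C ⊓ M : Subgroup G)).index) := by ring
              _ = Nat.card G * Nat.card (C ⊓ M : Subgroup G) := by rw [hcG, hcD]
              _ = Nat.card C * Nat.card M := hinf
              _ = (Nat.card (sol G) * (sol C).index) * (Nat.card P * (sol M).index) := by
                rw [hcC, hcM]
              _ = _ := by ring
          exact Nat.eq_of_mul_eq_mul_left (Nat.mul_pos p1 p2) h4
        have h3' : ((sol G).index : ℝ) * ((sol (C ⊓ M : Subgroup G)).index : ℝ) =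
            ((sol C).index : ℝ) * ((sol M).index : ℝ) := by exact_mod_cast h3
        have p5' : (0 : ℝ) < ((sol (C ⊓ M : Subgroup G)).index : ℝ) := by exact_mod_cast p5
        refine le_of_mul_le_mul_right ?_ p5'
        rw [h3']
        calc ((sol C).index : ℝ) * ((sol M).index : ℝ)
            ≤ ((M.index : ℝ) ^ e * ((sol (C ⊓ M : Subgroup G)).index : ℝ)) *
              ((sol M).index : ℝ) := mul_le_mul_of_nonneg_right hIH (Nat.cast_nonneg _)
          _ = _ := by ring

end step

theorem pf_PRB (h1 : T_SOL) (h2 : T_SQ) : T_PRB := by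
  intro e he X _ _ hH
  have key : ∀ (n : ℕ) (S : Subgroup X), Nat.card S = n → ∀ T : Subgroup X, T ≤ S →
      ((sol S).index : ℝ) ≤ (T.relIndex S : ℝ) ^ e * ((sol T).index : ℝ) := by
    intro n
    induction n using Nat.strong_induction_on with
    | _ n ih =>
      intro S hS T hT
      rcases eq_top_or_exists_le_coatom (T.subgroupOf S) with h3 | ⟨M, hM, hTM⟩
      · have h4 : T = S := le_antisymm hT (Subgroup.subgroupOf_eq_top.mp h3)
        subst h4
        rw [Subgroup.relIndex_self]
        simp
      · have hmap : ∀ D : Subgroup S, (sol D).index = (sol (D.map S.subtype)).index :=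
          fun D => PRB_iso h2 (D.equivMapOfInjective S.subtype S.subtype_injective)
        have hcard : ∀ D : Subgroup S, Nat.card (D.map S.subtype) = Nat.card D :=
          fun D => Subgroup.card_map_of_injective S.subtype_injective
        have hstep := PRB_step h1 h2 e he (G := S) (hH S) (by
          intro C D hDC hC
          have h5 := ih (Nat.card (C.map S.subtype)) (by rw [hcard, ← hS]; exact hC)
            (C.map S.subtype) rfl (D.map S.subtype) (Subgroup.map_mono hDC)
          rw [← hmap, ← hmap, Subgroup.relIndex_map_map_of_injective _ _ S.subtype_injective]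
            at h5
          exact h5) M hM
        have hTM' : T ≤ M.map S.subtype := fun t ht => ⟨⟨t, hT ht⟩, hTM ht, rfl⟩
        have hMS : M.map S.subtype ≤ S := Subgroup.map_subtype_le M
        have hidx : (M.map S.subtype).relIndex S = M.index := by
          have h5 : (M.map S.subtype).subgroupOf S = M :=
            Subgroup.comap_map_eq_self_of_injective S.subtype_injective M
          exact congrArg Subgroup.index h5
        have hlt : Nat.card (M.map S.subtype) < n := by
          rw [hcard, ← hS]
          have h4 : M.index ≠ 1 := fun h5 => hM.1 (Subgroup.index_eq_one.mp h5)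
          have h5 : M.index ≠ 0 := Subgroup.index_ne_zero_of_finite
          have h6 : 1 < M.index := by omega
          have h7 := M.card_mul_index
          have h8 : 0 < Nat.card M := Nat.card_pos
          nlinarith
        have h5 := ih _ hlt (M.map S.subtype) rfl T hTM'
        rw [← hmap] at h5
        rw [← Subgroup.relIndex_mul_relIndex T _ S hTM' hMS, hidx]
        push_cast
        rw [Real.mul_rpow (Nat.cast_nonneg _) (Nat.cast_nonneg _)]
        calc ((sol S).index : ℝ) ≤ (M.index : ℝ) ^ e * ((sol M).index : ℝ) := hstep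
          _ ≤ (M.index : ℝ) ^ e * ((T.relIndex (M.map S.subtype) : ℝ) ^ e *
              ((sol T).index : ℝ)) := mul_le_mul_of_nonneg_left h5 (by positivity)
          _ = _ := by ring
  exact fun T S hT => key _ S rfl T hT

end Pool.Agent.H1.FIB
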